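import Pool.Agent.FBalancedU.Equiv

/-!
MP_7ead4a_al, Q1, with the function form of the question (Itzkowitz's problem). For every
topological group `G` (no separation axiom, any universe) the following are equivalent:

1. `G` is balanced: every neighbourhood of `1` contains a conjugation-invariant one;
2. `G` is F-balanced: for every set `X` and every neighbourhood `U` of `1` there is a neighbourhood
   `V` of `1` with `V * X ⊆ X * U`;
3. the same for those sets `X` only which are uniformly discrete: for some neighbourhood `W` of `1`,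
   distinct `x`, `y` in `X` never satisfy `x⁻¹ * y ∈ W`;
4. every bounded left uniformly continuous real function on `G` is right uniformly continuous
   (`G` is functionally balanced);
5. every left uniformly continuous real function on `G` is right uniformly continuous (`G` is
   strongly functionally balanced);
6. the left and the right uniform structure of `G` coincide.

`leftUniformSpace`, `rightUniformSpace` are Mathlib's: generated by the sets
`{(x, y) | x⁻¹ * y ∈ U}` and by the sets `{(x, y) | y * x⁻¹ ∈ U}`, for `U` in `𝓝 1`.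
-/

set_option autoImplicit false

universe u

open scoped Pointwise Topology

namespace Pool.Agent.Results.MP_7ead4a_al.Itzkowitz

theorem result (G : Type u) [Group G] [TopologicalSpace G] [IsTopologicalGroup G] :
    List.TFAE [
      ∀ U ∈ 𝓝 (1 : G), ∃ V ∈ 𝓝 (1 : G), V ⊆ U ∧ ∀ g : G, ∀ x ∈ V, g * x * g⁻¹ ∈ V,
      ∀ X : Set G, ∀ U ∈ 𝓝 (1 : G), ∃ V ∈ 𝓝 (1 : G), V * X ⊆ X * U,
      ∀ X : Set G, (∃ W ∈ 𝓝 (1 : G), ∀ x ∈ X, ∀ y ∈ X, x⁻¹ * y ∈ W → x = y) →
        ∀ U ∈ 𝓝 (1 : G), ∃ V ∈ 𝓝 (1 : G), V * X ⊆ X * U,
      ∀ f : G → ℝ, (∃ C : ℝ, ∀ x, |f x| ≤ C) →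
        @UniformContinuous G ℝ (IsTopologicalGroup.leftUniformSpace G) _ f →
        @UniformContinuous G ℝ (IsTopologicalGroup.rightUniformSpace G) _ f,
      ∀ f : G → ℝ, @UniformContinuous G ℝ (IsTopologicalGroup.leftUniformSpace G) _ f →
        @UniformContinuous G ℝ (IsTopologicalGroup.rightUniformSpace G) _ f,
      IsTopologicalGroup.leftUniformSpace G = IsTopologicalGroup.rightUniformSpace G] := by
  tfae_have 1 → 6 := fun h => Pool.Agent.FBalancedU.uniform_eq_of_balanced h
  tfae_have 6 → 5 := fun h f hf => h ▸ hf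
  tfae_have 5 → 4 := fun h f _ hf => h f hf
  tfae_have 4 → 1 := fun h => Pool.Agent.FBalancedU.balanced_of_functionally h
  tfae_have 1 → 3 := fun h X _ U hU => Pool.Agent.FBalancedU.fbalanced_of_balanced h X U hU
  tfae_have 3 → 2 := fun h X U hU => Pool.Agent.FBalancedU.fbalanced_of_discrete h X U hU
  tfae_have 2 → 1 := by
    intro h U hU
    obtain ⟨V, h1, h2, h3⟩ := Pool.Agent.FBalancedU.balanced_of_fbalanced G h U hU
    exact ⟨V, h1, h2, fun g x hx => h3 g x hx⟩
  tfae_finish

end Pool.Agent.Results.MP_7ead4a_al.Itzkowitz
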